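import Mathlib
import Pool.Agent.Y793.Gol.Real

set_option autoImplicit false

/-! The part of `G` above the golden ratio (helper793). -/

namespace Pool.Agent.Results.MP_0ff3a5_nt.AboveGolden

open Pool.Agent.Y793.Gol

/-- the set of the values `⌊t α^n⌋` -/
def seqSet (t α : ℝ) : Set ℤ := {m | ∃ n : ℕ, m = ⌊t * α ^ n⌋}

/-- every large integer is a sum of distinct elements of `A` -/
def Complete (A : Set ℤ) : Prop :=
  ∃ N : ℤ, ∀ m ≥ N, ∃ F : Finset ℤ, (F : Set ℤ) ⊆ A ∧ ∑ a ∈ F, a = m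

/-- the sum of the distinct values among `⌊t⌋, ⌊t α⌋, …, ⌊t α^(n-1)⌋` -/
noncomputable def early (t α : ℝ) (n : ℕ) : ℤ :=
  ∑ x ∈ (Finset.range n).image (fun k => ⌊t * α ^ k⌋), x

theorem fl_int {t α : ℝ} (ht : 0 < t) (hα : 0 < α) (n : ℕ) : (fl t α n : ℤ) = ⌊t * α ^ n⌋ :=
  Int.natCast_floor_eq_floor (by positivity)

theorem early_eq {t α : ℝ} (ht : 0 < t) (hα : 0 < α) (n : ℕ) :
    early t α n = (sg (fl t α) n : ℤ) := by
  unfold early sg
  have h1 : (Finset.range n).image (fun k => ⌊t * α ^ k⌋) =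
      ((Finset.range n).image (fl t α)).image (fun x : ℕ => (x : ℤ)) := by
    rw [Finset.image_image]
    apply Finset.image_congr
    intro k _
    exact (fl_int ht hα k).symm
  rw [h1, Finset.sum_image (by intro a _ b _ hab; exact Int.natCast_inj.1 hab)]
  push_cast
  rfl

theorem rep_iff {t α : ℝ} (ht : 0 < t) (hα : 0 < α) (m : ℕ) :
    (∃ F : Finset ℤ, (F : Set ℤ) ⊆ seqSet t α ∧ ∑ a ∈ F, a = m) ↔ Rep (fl t α) m := by
  constructor
  · rintro ⟨F, hF, hsum⟩
    have hnn : ∀ x ∈ F, 0 ≤ x := by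
      intro x hx
      obtain ⟨n, hn⟩ := hF (Finset.mem_coe.2 hx)
      rw [hn, ← fl_int ht hα n]
      exact Int.natCast_nonneg _
    refine ⟨F.image Int.toNat, ?_, ?_⟩
    · intro x hx
      rw [Finset.mem_image] at hx
      obtain ⟨y, hy, rfl⟩ := hx
      obtain ⟨n, hn⟩ := hF (Finset.mem_coe.2 hy)
      refine ⟨n, ?_⟩
      rw [hn, ← fl_int ht hα n]
      simp
    · rw [Finset.sum_image (by
        intro a ha b hb hab
        have h1 := hnn a ha
        have h2 := hnn b hb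
        omega)]
      have h3 : ((∑ x ∈ F, x.toNat : ℕ) : ℤ) = m := by
        push_cast
        rw [← hsum]
        apply Finset.sum_congr rfl
        intro x hx
        have := hnn x hx
        omega
      exact_mod_cast h3
  · rintro ⟨s, hs, hsum⟩
    refine ⟨s.map Nat.castEmbedding, ?_, ?_⟩
    · intro x hx
      simp only [Finset.coe_map, Set.mem_image, Finset.mem_coe, Nat.castEmbedding_apply] at hx
      obtain ⟨v, hv, rfl⟩ := hx
      obtain ⟨n, hn⟩ := hs v hv
      refine ⟨n, ?_⟩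
      rw [hn]
      exact fl_int ht hα n
    · rw [Finset.sum_map]
      simp only [Nat.castEmbedding_apply]
      rw [← Nat.cast_sum, hsum]

theorem complete_iff {t α : ℝ} (ht : 0 < t) (hα : 0 < α) :
    Complete (seqSet t α) ↔ ∃ N, ∀ y ≥ N, Rep (fl t α) y := by
  constructor
  · rintro ⟨N, h⟩
    refine ⟨N.toNat, fun y hy => (rep_iff ht hα y).1 (h y (by omega))⟩
  · rintro ⟨N, h⟩
    refine ⟨N, fun m hm => ?_⟩
    obtain ⟨k, rfl⟩ := Int.eq_ofNat_of_zero_le (show 0 ≤ m by omega)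
    exact (rep_iff ht hα k).2 (h k (by exact_mod_cast hm))

/-- Let `t > 0` and `α ≥ (1 + √5) / 2`. The sequence `⌊t α^n⌋` is complete iff every natural number
is a sum of distinct terms, iff each term exceeds the sum of the distinct earlier terms by at most
`1`; for `α < 2` only the finitely many `n` with `t α^n (2 - α) < t + n (α - 1)` matter. If it is
complete, then `t < 2`. -/
theorem result (t α : ℝ) (ht : 0 < t) (hα : (1 + Real.sqrt 5) / 2 ≤ α) :
    (Complete (seqSet t α) ↔ ∀ n : ℕ, ⌊t * α ^ n⌋ ≤ 1 + early t α n) ∧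
    (Complete (seqSet t α) ↔
      ∀ m : ℕ, ∃ F : Finset ℤ, (F : Set ℤ) ⊆ seqSet t α ∧ ∑ a ∈ F, a = m) ∧
    (α < 2 → {n : ℕ | t * α ^ n * (2 - α) < t + n * (α - 1)}.Finite ∧
      (Complete (seqSet t α) ↔ ∀ n : ℕ, t * α ^ n * (2 - α) < t + n * (α - 1) →
        ⌊t * α ^ n⌋ ≤ 1 + early t α n)) ∧
    (Complete (seqSet t α) → t < 2) := by
  obtain ⟨h1, h32⟩ := golden hα
  have hα0 : 0 < α := by linarith
  obtain ⟨e1, e2⟩ := main (fl_mono ht (by linarith : 1 ≤ α)) (fl_fib ht hα0 h1)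
    (fl_unb ht (by linarith : 1 < α))
  have key : ∀ n : ℕ, (⌊t * α ^ n⌋ ≤ 1 + early t α n ↔ fl t α n ≤ 1 + sg (fl t α) n) := by
    intro n
    rw [early_eq ht hα0, ← fl_int ht hα0]
    constructor
    · intro h; exact_mod_cast h
    · intro h; exact_mod_cast h
  have c1 : Complete (seqSet t α) ↔ ∀ n : ℕ, ⌊t * α ^ n⌋ ≤ 1 + early t α n := by
    rw [complete_iff ht hα0, e1]
    exact ⟨fun h n => (key n).2 (h n), fun h n => (key n).1 (h n)⟩
  refine ⟨c1, ?_, ?_, ?_⟩
  · rw [complete_iff ht hα0, e2]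
    exact ⟨fun h m => (rep_iff ht hα0 m).2 (h m), fun h m => (rep_iff ht hα0 m).1 (h m)⟩
  · intro h2
    refine ⟨fin_exc ht (by linarith) h2, ?_⟩
    rw [c1]
    refine ⟨fun h n _ => h n, fun h n => ?_⟩
    by_cases hn : t * α ^ n * (2 - α) < t + n * (α - 1)
    · exact h n hn
    · push Not at hn
      exact (key n).2 (auto ht h32 h1 n hn)
  · intro h
    have h3 := c1.1 h 0
    simp only [pow_zero, mul_one, early, Finset.range_zero, Finset.image_empty,
      Finset.sum_empty, add_zero] at h3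
    have h4 := Int.lt_floor_add_one t
    have h5 : ((⌊t⌋ : ℤ) : ℝ) ≤ 1 := by exact_mod_cast h3
    linarith

end Pool.Agent.Results.MP_0ff3a5_nt.AboveGolden
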