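import Pool.Agent.Y509.FL.Clo

/-!
# The set of the pairs `(t, α)` for which `⌊t α^n⌋` is complete lies in the closure of its interior

Below the line `α = 2` completeness of `⌊t α^n⌋` is equivalent to a condition on finitely many
terms of the sequence, and it is open to the right in `(t, α)`. The good points `(2^{-k}, 2)` of the
line `α = 2` are limits of good points with `α < 2`. The set `G` contains the rectangle
`0 < t < 2`, `1 < α ≤ 3/2`, and for every `t > 0` all `α > 1` with `(2 t + 8) (α - 1) ≤ 1`.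
-/

set_option autoImplicit false

open Filter Topology

namespace Pool.Agent.Results.MP_0ff3a5_nt.Interior

/-- The set of the values `⌊t α^n⌋`, `n ≥ 0`. -/
def seqSet (t α : ℝ) : Set ℤ := {m | ∃ n : ℕ, m = ⌊t * α ^ n⌋}

/-- Every large integer is a sum of distinct elements of `A`. -/
def Complete (A : Set ℤ) : Prop :=
  ∃ N : ℤ, ∀ m ≥ N, ∃ F : Finset ℤ, (F : Set ℤ) ⊆ A ∧ ∑ a ∈ F, a = m

/-- The set `G` of the problem. -/
def G : Set (ℝ × ℝ) := {p | 0 < p.1 ∧ 0 < p.2 ∧ Complete (seqSet p.1 p.2)}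

/-- `m` is a sum of distinct values among `⌊t α^0⌋, …, ⌊t α^n⌋`. -/
def IsSum (t α : ℝ) (n : ℕ) (m : ℤ) : Prop :=
  ∃ F : Finset ℤ, (∀ a ∈ F, ∃ k ≤ n, a = ⌊t * α ^ k⌋) ∧ ∑ a ∈ F, a = m

/-- **The structure of the set `G`.**

(1) `G` lies in the strip `1 < α ≤ 2` and in the closure of its interior.
(2) For `1 < α < 2`, `(t, α) ∈ G` if and only if for some `n` with `α < (2 - α) ⌊t α^n⌋` and some
`L` all integers of `[L, L + 2 ⌊t α^n⌋]` are sums of distinct values among the first `n + 1` terms.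
(3) If `(t, α) ∈ G` and `α < 2`, then `[t, t + ε) × [α, α + ε) ⊆ G` for some `ε > 0`.
(4) `(0, 2) × (1, 3/2] ⊆ G`.
(5) If `t > 0`, `α > 1` and `(2 t + 8) (α - 1) ≤ 1` then `(t, α) ∈ G`. -/
theorem result :
    (∀ p ∈ G, 1 < p.2 ∧ p.2 ≤ 2 ∧ p ∈ closure (interior G)) ∧
    (∀ t α : ℝ, 0 < t → 1 < α → α < 2 →
      ((t, α) ∈ G ↔ ∃ (n : ℕ) (L : ℤ), α < (2 - α) * (⌊t * α ^ n⌋ : ℤ) ∧
        ∀ m, L ≤ m → m ≤ L + 2 * ⌊t * α ^ n⌋ → IsSum t α n m)) ∧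
    (∀ t α : ℝ, (t, α) ∈ G → α < 2 → ∃ ε : ℝ, 0 < ε ∧
      Set.Ico t (t + ε) ×ˢ Set.Ico α (α + ε) ⊆ G) ∧
    Set.Ioo 0 2 ×ˢ Set.Ioc 1 (3 / 2) ⊆ G ∧
    (∀ t α : ℝ, 0 < t → 1 < α → (2 * t + 8) * (α - 1) ≤ 1 → (t, α) ∈ G) := by
  refine ⟨fun p hp => Y509.FL.closure_interior hp, fun t α ht hα hα2 => ?_,
    fun t α h hα2 => ?_, fun p hp => ?_, fun t α ht hα h => ?_⟩
  · have key := Y509.FL.complete_iff ht hα hα2
    exact ⟨fun h => key.1 h.2.2, fun h => ⟨ht, by simp only; linarith, key.2 h⟩⟩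
  · have hα := (Y509.FL.closure_interior h).1
    obtain ⟨ε, hε, h1⟩ := Y509.FL.right_open h.1 hα hα2 h.2.2
    refine ⟨ε, hε, fun p hp => ?_⟩
    have h2 := h1 p.1 p.2 hp.1.1 hp.1.2 hp.2.1 hp.2.2
    exact ⟨h.1.trans_le hp.1.1, (by linarith : (0 : ℝ) < α).trans_le hp.2.1, h2.2⟩
  · exact ⟨hp.1.1, by linarith [hp.2.1], Y509.FL.rectangle hp.1.1 hp.1.2 hp.2.1 hp.2.2⟩
  · exact ⟨ht, by simp only; linarith, Y509.FL.near_one ht hα h⟩

end Pool.Agent.Results.MP_0ff3a5_nt.Interior
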