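import Mathlib
import Pool.Agent.Y943.Fl.No3

set_option autoImplicit false

/-! Bad pairs `(t, α)` with `α` below the golden ratio (helper943). -/

namespace Pool.Agent.Results.MP_0ff3a5_nt.PisotNotGood

/-- the set of the values `⌊t α^n⌋` -/
def seqSet (t α : ℝ) : Set ℤ := {m | ∃ n : ℕ, m = ⌊t * α ^ n⌋}

/-- every large integer is a sum of distinct elements of `A` -/
def Complete (A : Set ℤ) : Prop :=
  ∃ N : ℤ, ∀ m ≥ N, ∃ F : Finset ℤ, (F : Set ℤ) ⊆ A ∧ ∑ a ∈ F, a = m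

theorem not_complete_of_even {S : Set ℤ} (h : ∀ x ∈ S, Even x) : ¬ Complete S := by
  rintro ⟨N, hN⟩
  obtain ⟨s, hs, hsum⟩ := hN (2 * |N| + 1) (by have := le_abs_self N; have := abs_nonneg N; omega)
  have h1 : Even (∑ x ∈ s, x) := Finset.even_sum _ (fun x hx => h x (hs hx))
  rw [hsum] at h1
  exact (Int.not_even_iff_odd.2 (odd_two_mul_add_one |N|)) h1

/-- For every `n ≥ 4` there is `α` in `(3/2, (1+√5)/2)` with `α^n (1 + α - α²) = 1`; and for every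
`α > 1` with `α^n (1 + α - α²) = 1` for some `n ≥ 4` there is `t > 0` for which all the integers
`⌊t α^k⌋` are even, so that the sequence is not complete. -/
theorem result (n : ℕ) (hn : 4 ≤ n) :
    (∃ α : ℝ, 3 / 2 < α ∧ α ^ 2 < α + 1 ∧ α ^ n * (1 + α - α ^ 2) = 1) ∧
    ∀ α : ℝ, 1 < α → α ^ n * (1 + α - α ^ 2) = 1 →
      ∃ t : ℝ, 0 < t ∧ (∀ k : ℕ, Even ⌊t * α ^ k⌋) ∧ ¬ Complete (seqSet t α) := by
  refine ⟨Pool.Agent.Y943.Fl.family_exists hn, fun α hα h => ?_⟩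
  obtain ⟨t, ht, hev⟩ := Pool.Agent.Y943.Fl.family hn hα h
  have hall : ∀ k : ℕ, Even ⌊t * α ^ k⌋ := by
    intro k
    have h0 : (0 : ℝ) ≤ t * α ^ k := by positivity
    have h1 := hev k
    rw [← Int.natCast_floor_eq_floor h0]
    exact_mod_cast h1
  refine ⟨t, ht, hall, not_complete_of_even ?_⟩
  rintro x ⟨k, rfl⟩
  exact hall k

end Pool.Agent.Results.MP_0ff3a5_nt.PisotNotGood
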